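import Mathlib

/-!
# The graphical cycle polynomial of a chordal graph need not be real-rooted

The square of the path on five vertices is a chordal graph whose graphical cycle polynomial is
`x (x⁴ + 7 x³ + 13 x² + 8 x + 2)`, which has non-real roots.
-/

namespace Pool.Agent.Results.MP_efc620_co.NotRealRooted

open Finset Polynomial

/-- The number of cycles of `σ`, fixed points counted as cycles (the number of orbits of `σ`). -/
noncomputable def numCycles {V : Type} (σ : Equiv.Perm V) : ℕ :=
  Nat.card (Quotient (Equiv.Perm.SameCycle.setoid σ))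

/-- `[G; k]`: the number of permutations `σ` of `V` with exactly `k` cycles such that `v` and `σ v`
are adjacent whenever `σ v ≠ v`. -/
noncomputable def stirling {V : Type} (G : SimpleGraph V) (k : ℕ) : ℕ :=
  Nat.card {σ : Equiv.Perm V // (∀ v, σ v ≠ v → G.Adj v (σ v)) ∧ numCycles σ = k}

/-- The graphical cycle polynomial `C(G, x) = ∑_{k=1}^n [G; k] x^k`. -/
noncomputable def cyclePoly {V : Type} [Fintype V] (G : SimpleGraph V) : ℂ[X] :=
  ∑ k ∈ Icc 1 (Fintype.card V), C (stirling G k : ℂ) * X ^ k

/-- Every cycle `f 0, f 1, …, f (m - 1)` of length `m ≥ 4` has a chord. -/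
def IsChordal {V : Type} (G : SimpleGraph V) : Prop :=
  ∀ m : ℕ, 4 ≤ m → ∀ f : ZMod m → V, Function.Injective f → (∀ i, G.Adj (f i) (f (i + 1))) →
    ∃ i j, i ≠ j ∧ j ≠ i + 1 ∧ i ≠ j + 1 ∧ G.Adj (f i) (f j)

/-- The square of the path on five vertices. -/
def P : SimpleGraph (Fin 5) where
  Adj u v := u ≠ v ∧ u.val ≤ v.val + 2 ∧ v.val ≤ u.val + 2
  symm := ⟨fun _ _ h => ⟨h.1.symm, h.2.2, h.2.1⟩⟩
  loopless := ⟨fun _ h => h.1 rfl⟩

instance : DecidableRel P.Adj := fun u v => by unfold P; infer_instance

theorem P_chordal : IsChordal P := by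
  intro m hm f hf hadj
  have : NeZero m := ⟨by omega⟩
  obtain ⟨i, -, hi⟩ := exists_min_image (univ : Finset (ZMod m)) f ⟨0, mem_univ 0⟩
  have hlt : ∀ k, k ≠ i → (f i).val < (f k).val := by
    intro k hk
    have h1 := hi k (mem_univ k)
    have h2 : f i ≠ f k := fun h => hk (hf h).symm
    exact Fin.lt_def.1 (lt_of_le_of_ne h1 h2)
  have hone : (1 : ZMod m) ≠ 0 := by
    have : Fact (1 < m) := ⟨by omega⟩
    exact one_ne_zero
  have htwo : (2 : ZMod m) ≠ 0 := by
    intro h
    have h1 : ((2 : ℕ) : ZMod m) = 0 := by exact_mod_cast h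
    rw [ZMod.natCast_eq_zero_iff] at h1
    have := Nat.le_of_dvd (by norm_num) h1
    omega
  have hthree : (3 : ZMod m) ≠ 0 := by
    intro h
    have h1 : ((3 : ℕ) : ZMod m) = 0 := by exact_mod_cast h
    rw [ZMod.natCast_eq_zero_iff] at h1
    have := Nat.le_of_dvd (by norm_num) h1
    omega
  have hne : i - 1 ≠ i + 1 := by
    intro h
    apply htwo
    linear_combination -h
  refine ⟨i - 1, i + 1, hne, ?_, ?_, ?_⟩
  · intro h
    apply hone
    linear_combination h
  · intro h
    apply hthree
    linear_combination -h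
  · have a1 := hadj i
    have a2 := hadj (i - 1)
    rw [sub_add_cancel] at a2
    have l1 := hlt (i + 1) (fun h => hone (by linear_combination h))
    have l2 := hlt (i - 1) (fun h => hone (by linear_combination -h))
    have h3 : f (i - 1) ≠ f (i + 1) := fun h => hne (hf h)
    exact ⟨h3, by have := a1.2; have := a2.2; omega, by have := a1.2; have := a2.2; omega⟩

/-! ## Counting cycles by orbit minima -/

/-- The number of points that are minimal in their orbit. -/
def ncyc (σ : Equiv.Perm (Fin 5)) : ℕ :=
  (univ.filter fun v : Fin 5 => ∀ i ∈ range 7, v ≤ (σ ^ i) v).card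

theorem sameCycle_iff (σ : Equiv.Perm (Fin 5)) (v w : Fin 5) :
    σ.SameCycle v w ↔ ∃ i ∈ range 7, (σ ^ i) v = w := by
  constructor
  · intro h
    obtain ⟨i, _, h2, h3⟩ := h.exists_pow_eq
    refine ⟨i, ?_, h3⟩
    rw [mem_range]
    have : (σ.cycleOf v).support.card ≤ 5 := by
      have := card_le_univ (σ.cycleOf v).support
      rwa [Fintype.card_fin] at this
    omega
  · rintro ⟨i, _, h⟩
    exact ⟨i, by simpa using h⟩

theorem numCycles_eq (σ : Equiv.Perm (Fin 5)) : numCycles σ = ncyc σ := by
  classical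
  have hb : Function.Bijective
      (fun v : {v : Fin 5 // ∀ i ∈ range 7, v ≤ (σ ^ i) v} =>
        (Quotient.mk (Equiv.Perm.SameCycle.setoid σ) v.1)) := by
    constructor
    · rintro ⟨v, hv⟩ ⟨w, hw⟩ h
      have h1 : σ.SameCycle v w := Quotient.exact h
      have h2 : σ.SameCycle w v := h1.symm
      obtain ⟨i, hi, hi'⟩ := (sameCycle_iff σ v w).1 h1
      obtain ⟨j, hj, hj'⟩ := (sameCycle_iff σ w v).1 h2
      apply Subtype.ext
      apply le_antisymm
      · have := hv i hi
        rwa [hi'] at this
      · have := hw j hj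
        rwa [hj'] at this
    · intro q
      obtain ⟨v, rfl⟩ := Quotient.exists_rep q
      obtain ⟨w, hw, hw'⟩ := exists_min_image (univ.filter fun w => σ.SameCycle v w) id
        ⟨v, by rw [mem_filter]; exact ⟨mem_univ _, Equiv.Perm.SameCycle.refl _ _⟩⟩
      rw [mem_filter] at hw
      refine ⟨⟨w, ?_⟩, ?_⟩
      · intro i hi
        apply hw' ((σ ^ i) w)
        rw [mem_filter]
        refine ⟨mem_univ _, hw.2.trans ?_⟩
        exact ⟨i, by simp⟩
      · exact Quotient.sound hw.2.symm
  rw [numCycles, ← Nat.card_congr (Equiv.ofBijective _ hb), Nat.card_eq_fintype_card,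
    Fintype.card_subtype, ncyc]

theorem stirling_eq (k : ℕ) : stirling P k =
    (univ.filter fun σ : Equiv.Perm (Fin 5) =>
      (∀ v, σ v ≠ v → P.Adj v (σ v)) ∧ ncyc σ = k).card := by
  rw [stirling, Nat.card_eq_fintype_card, Fintype.card_subtype]
  congr 1
  ext σ
  simp only [mem_filter, mem_univ, true_and, numCycles_eq]

theorem st1 : stirling P 1 = 2 := by
  rw [stirling_eq]
  decide +kernel

theorem st2 : stirling P 2 = 8 := by
  rw [stirling_eq]
  decide +kernel

theorem st3 : stirling P 3 = 13 := by
  rw [stirling_eq]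
  decide +kernel

theorem st4 : stirling P 4 = 7 := by
  rw [stirling_eq]
  decide +kernel

theorem st5 : stirling P 5 = 1 := by
  rw [stirling_eq]
  decide +kernel

theorem cyclePoly_P : cyclePoly P =
    C 2 * X + C 8 * X ^ 2 + C 13 * X ^ 3 + C 7 * X ^ 4 + X ^ 5 := by
  rw [cyclePoly, Fintype.card_fin]
  have : Icc 1 5 = ({1, 2, 3, 4, 5} : Finset ℕ) := by decide
  rw [this]
  rw [sum_insert (by decide), sum_insert (by decide), sum_insert (by decide),
    sum_insert (by decide), sum_singleton, st1, st2, st3, st4, st5]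
  push_cast
  simp only [map_one]
  ring

/-! ## The quartic factor has a non-real root -/

/-- The quartic factor. -/
noncomputable def Q : ℂ[X] := X ^ 4 + C 7 * X ^ 3 + C 13 * X ^ 2 + C 8 * X + C 2

theorem Q_natDegree : Q.natDegree = 4 := by
  unfold Q
  compute_degree!

theorem Q_monic : Q.Monic := by
  unfold Q
  monicity!

theorem cyclePoly_P' : cyclePoly P = X * Q := by
  rw [cyclePoly_P, Q]
  ring

theorem Q_roots : ∃ z ∈ Q.roots, z.im ≠ 0 := by
  by_contra hcon
  push Not at hcon
  have hsplit := IsAlgClosed.splits Q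
  have hcard : Multiset.card Q.roots = 4 := by
    rw [← Q_natDegree]
    exact hsplit.natDegree_eq_card_roots.symm
  have hprod : Q = (Q.roots.map fun a => X - C a).prod :=
    hsplit.eq_prod_roots_of_monic Q_monic
  obtain ⟨l, hl⟩ := Quotient.exists_rep Q.roots
  have hl' : Q.roots = (l : Multiset ℂ) := hl.symm
  rw [hl'] at hcard hprod hcon
  rw [Multiset.coe_card] at hcard
  match l, hcard with
  | [a, b, c, d], _ =>
    have ha : a = (a.re : ℂ) := by
      apply Complex.ext <;> simp [hcon a (by simp)]
    have hb : b = (b.re : ℂ) := by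
      apply Complex.ext <;> simp [hcon b (by simp)]
    have hc : c = (c.re : ℂ) := by
      apply Complex.ext <;> simp [hcon c (by simp)]
    have hd : d = (d.re : ℂ) := by
      apply Complex.ext <;> simp [hcon d (by simp)]
    generalize a.re = a' at ha
    generalize b.re = b' at hb
    generalize c.re = c' at hc
    generalize d.re = d' at hd
    subst ha hb hc hd
    have key : ∀ t : ℝ, t ^ 4 + 7 * t ^ 3 + 13 * t ^ 2 + 8 * t + 2 =
        (t - a') * ((t - b') * ((t - c') * (t - d'))) := by
      intro t
      have h := congrArg (Polynomial.eval (t : ℂ)) hprod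
      unfold Q at h
      simp at h
      exact_mod_cast h
    have h0 := key 0
    have h1 := key 1
    have h2 := key (-1)
    have h3 := key 2
    have e4 : a' * b' * c' * d' = 2 := by linarith
    have e2 : a' * b' + a' * c' + a' * d' + b' * c' + b' * d' + c' * d' = 13 := by
      linarith
    have e3 : a' * b' * c' + a' * b' * d' + a' * c' * d' + b' * c' * d' = -8 := by
      linarith
    have hs : 3 * (a' * b' * c' + a' * b' * d' + a' * c' * d' + b' * c' * d') ^ 2 -
        8 * (a' * b' + a' * c' + a' * d' + b' * c' + b' * d' + c' * d') * (a' * b' * c' * d') =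
        (a' * b' * c' - a' * b' * d') ^ 2 + (a' * b' * c' - a' * c' * d') ^ 2 +
        (a' * b' * c' - b' * c' * d') ^ 2 + (a' * b' * d' - a' * c' * d') ^ 2 +
        (a' * b' * d' - b' * c' * d') ^ 2 + (a' * c' * d' - b' * c' * d') ^ 2 := by ring
    rw [e2, e3, e4] at hs
    have := sq_nonneg (a' * b' * c' - a' * b' * d')
    have := sq_nonneg (a' * b' * c' - a' * c' * d')
    have := sq_nonneg (a' * b' * c' - b' * c' * d')
    have := sq_nonneg (a' * b' * d' - a' * c' * d')
    have := sq_nonneg (a' * b' * d' - b' * c' * d')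
    have := sq_nonneg (a' * c' * d' - b' * c' * d')
    norm_num at hs
    linarith

/-- There is a chordal graph (on five vertices) whose graphical cycle polynomial has a non-real
complex root: the square of the path on five vertices. -/
theorem result : ∃ G : SimpleGraph (Fin 5), IsChordal G ∧
    ∃ z ∈ (cyclePoly G).roots, z.im ≠ 0 := by
  obtain ⟨z, hz, hz'⟩ := Q_roots
  refine ⟨P, P_chordal, z, ?_, hz'⟩
  rw [mem_roots', cyclePoly_P']
  refine ⟨mul_ne_zero X_ne_zero Q_monic.ne_zero, ?_⟩
  rw [IsRoot.def, eval_mul, (mem_roots'.1 hz).2, mul_zero]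

end Pool.Agent.Results.MP_efc620_co.NotRealRooted
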